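import Mathlib
import Pool.Agent.R232.BrokenLin

/-!
# MP_8df504_an, Q1: ergodic averages of a broken-linear map with all numbers of `[0,1]` as limit points

Let `a` be a fixed point of a map `T` of `[0,1]` and `J ⊆ [0,1]` a Borel set without `a` which `T`
maps into itself with `|T x - a| = l |x - a|`, `0 < l < 1` (for instance a one-sided neighbourhood of
an attracting fixed point of a broken-linear map, on a piece with slope `l`). There is ONE Borel set
`R ⊆ J` such that for EVERY point `p` with an iterate in `J` every number of `[0,1]` is a limit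
point of the averages `A_N(R, p)`. So Q1 fails for all broken-linear maps with such a fixed point.
In particular there are a broken-linear homeomorphism `T` of `[0,1]` and a Borel set `R` such that
for every `p` in `(0,1)` the limit points of `A_N(R, p)` are all numbers of `[0,1]`.

The set `R` consists of the points whose level `k` (the integral part of the logarithm of
`1 / |x - a|` to the base `1 / l`) satisfies `2 ^ (2 ^ m) ≤ k < 2 ^ (2 ^ (m + 1))` for an even `m`.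
The averages go from almost `0` to almost `1` and back infinitely often, in steps of at most `1 / N`.
-/

set_option autoImplicit false

namespace Pool.Agent.Results.MP_8df504_an.EveryLimitPoint

open MeasureTheory Set Filter Topology
open Pool.Agent.R232.BrokenLin (BrokenLinear avg T T_broken T_bij exists_low)

open Classical in
/-- the indicator of the blocks -/
noncomputable def e (k : ℕ) : ℝ := if Even (Nat.log 2 (Nat.log 2 k)) then 1 else 0

lemma loglog {m k : ℕ} (h1 : 2 ^ 2 ^ m ≤ k) (h2 : k < (2 ^ 2 ^ m) ^ 2) :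
    Nat.log 2 (Nat.log 2 k) = m := by
  have hk : k ≠ 0 := by
    have : 0 < 2 ^ 2 ^ m := by positivity
    omega
  have h3 : 2 ^ m ≤ Nat.log 2 k := Nat.le_log_of_pow_le (by norm_num) h1
  have h4 : Nat.log 2 k < 2 ^ (m + 1) := by
    apply Nat.log_lt_of_lt_pow hk
    rw [pow_succ, pow_mul]
    exact h2
  apply Nat.log_eq_of_pow_le_of_lt_pow h3 h4

/-- the averages of a sequence -/
noncomputable def av (v : ℕ → ℝ) (N : ℕ) : ℝ := (1 / (N : ℝ)) * ∑ i ∈ Finset.Icc 1 N, v i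

section seq

variable {v : ℕ → ℝ} (h0 : ∀ i, 0 ≤ v i) (h1 : ∀ i, v i ≤ 1)

include h0 h1

lemma sum_bounds (N : ℕ) : 0 ≤ ∑ i ∈ Finset.Icc 1 N, v i ∧ ∑ i ∈ Finset.Icc 1 N, v i ≤ N := by
  refine ⟨Finset.sum_nonneg fun i _ => h0 i, ?_⟩
  calc ∑ i ∈ Finset.Icc 1 N, v i ≤ ∑ _i ∈ Finset.Icc 1 N, (1 : ℝ) := Finset.sum_le_sum fun i _ => h1 i
    _ = N := by simp

lemma step (N : ℕ) (hN : 1 ≤ N) : |av v (N + 1) - av v N| ≤ 1 / N := by
  obtain ⟨b0, b1⟩ := sum_bounds h0 h1 N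
  have hNr : (1 : ℝ) ≤ N := by exact_mod_cast hN
  unfold av
  rw [Finset.sum_Icc_succ_top (by omega)]
  set S := ∑ i ∈ Finset.Icc 1 N, v i
  have e1 : 1 / (((N + 1 : ℕ)) : ℝ) * (S + v (N + 1)) - 1 / (N : ℝ) * S
      = (N * v (N + 1) - S) / (N * (N + 1)) := by
    push_cast
    field_simp
    ring
  rw [e1, abs_div, abs_of_pos (show (0 : ℝ) < N * (N + 1) by positivity), div_le_div_iff₀ (by positivity) (by positivity)]
  have h2 : |N * v (N + 1) - S| ≤ N := by
    rw [abs_le]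
    have := h0 (N + 1)
    have := h1 (N + 1)
    constructor <;> nlinarith
  nlinarith

/-- the averages near the end of a block -/
lemma block {n0 s : ℕ} (hv : ∀ i, v (n0 + i) = e (s + i)) {m : ℕ} (hs : s + 1 ≤ 2 ^ 2 ^ m) :
    ∀ N : ℕ, N = n0 + ((2 ^ 2 ^ m) ^ 2 - 1 - s) →
      (¬ Even m → ∑ i ∈ Finset.Icc 1 N, v i ≤ n0 + 2 ^ 2 ^ m) ∧
      (Even m → (N : ℝ) - (n0 + 2 ^ 2 ^ m) ≤ ∑ i ∈ Finset.Icc 1 N, v i) := by
  intro N hN
  set K := 2 ^ 2 ^ m with hK
  have hval : ∀ i ∈ Finset.Icc 1 N, n0 + K ≤ i → Nat.log 2 (Nat.log 2 (s + (i - n0))) = m := by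
    intro i hi hi2
    rw [Finset.mem_Icc] at hi
    have hKK : K ≤ K ^ 2 := by nlinarith
    apply loglog
    · omega
    · rw [← hK]; omega
  have hve : ∀ i ∈ Finset.Icc 1 N, n0 + K ≤ i → v i = e (s + (i - n0)) := by
    intro i hi hi2
    rw [← hv, show n0 + (i - n0) = i by omega]
  have hcard : (∑ i ∈ Finset.Icc 1 N, if i < n0 + K then (1 : ℝ) else 0) ≤ n0 + K := by
    rw [← Finset.sum_filter, Finset.sum_const, nsmul_eq_mul, mul_one]
    have : ((Finset.Icc 1 N).filter fun i => i < n0 + K).card ≤ n0 + K := by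
      calc _ ≤ (Finset.range (n0 + K)).card := by
            apply Finset.card_le_card
            intro i hi
            rw [Finset.mem_filter] at hi
            exact Finset.mem_range.2 hi.2
        _ = n0 + K := Finset.card_range _
    exact_mod_cast this
  constructor
  · intro hm
    have hKr : ((n0 : ℝ) + 2 ^ 2 ^ m) = n0 + (K : ℝ) := by rw [hK]; push_cast; rfl
    rw [hKr]
    refine le_trans (Finset.sum_le_sum fun i hi => ?_) hcard
    split_ifs with hlt
    · exact h1 i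
    · rw [hve i hi (by omega)]
      unfold e
      rw [hval i hi (by omega), if_neg hm]
  · intro hm
    have hKr : ((n0 : ℝ) + 2 ^ 2 ^ m) = n0 + (K : ℝ) := by rw [hK]; push_cast; rfl
    rw [hKr]
    have h3 : ∑ i ∈ Finset.Icc 1 N, (1 - (if i < n0 + K then (1 : ℝ) else 0)) ≤ ∑ i ∈ Finset.Icc 1 N, v i := by
      apply Finset.sum_le_sum
      intro i hi
      split_ifs with hlt
      · have := h0 i; linarith
      · rw [hve i hi (by omega)]
        unfold e
        rw [hval i hi (by omega), if_pos hm]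
        norm_num
    rw [Finset.sum_sub_distrib] at h3
    simp only [Finset.sum_const, Nat.card_Icc, Nat.add_sub_cancel, nsmul_eq_mul, mul_one] at h3
    linarith

/-- large blocks of both parities -/
lemma exists_block (n0 s : ℕ) (ε : ℝ) (hε : 0 < ε) (N₀ : ℕ) (b : Bool) :
    ∃ m N : ℕ, (Even m ↔ b = true) ∧ s + 1 ≤ 2 ^ 2 ^ m ∧ N = n0 + ((2 ^ 2 ^ m) ^ 2 - 1 - s) ∧ N₀ ≤ N ∧ 0 < N ∧
      ((n0 : ℝ) + 2 ^ 2 ^ m) < ε * N := by
  obtain ⟨B, hB⟩ := exists_nat_gt (((n0 : ℝ) + 1) / ε)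
  obtain ⟨m, hm, hp⟩ : ∃ m : ℕ, B + N₀ + s + 2 ≤ m ∧ (Even m ↔ b = true) := by
    cases b
    · refine ⟨2 * (B + N₀ + s + 2) + 1, by omega, ?_⟩
      simp
    · refine ⟨2 * (B + N₀ + s + 2), by omega, ?_⟩
      simp
  have hK1 : m < 2 ^ 2 ^ m := lt_trans Nat.lt_two_pow_self Nat.lt_two_pow_self
  obtain ⟨K, hK⟩ : ∃ K, K = 2 ^ 2 ^ m := ⟨_, rfl⟩
  rw [← hK] at hK1
  have hcast : ((2 : ℝ) ^ 2 ^ m) = (K : ℝ) := by rw [hK]; push_cast; rfl
  refine ⟨m, n0 + (K ^ 2 - 1 - s), hp, by rw [← hK]; omega, by rw [← hK], ?_, ?_, ?_⟩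
  · have : K * (B + N₀ + s + 2) ≤ K ^ 2 := by nlinarith
    have : (B + N₀ + s + 2) ≤ K * (B + N₀ + s + 2) := Nat.le_mul_of_pos_left _ (by omega)
    omega
  · have : K * (B + N₀ + s + 2) ≤ K ^ 2 := by nlinarith
    have : (B + N₀ + s + 2) ≤ K * (B + N₀ + s + 2) := Nat.le_mul_of_pos_left _ (by omega)
    omega
  · rw [hcast]
    have hsK : s + 2 ≤ K := by omega
    have hN : (K : ℝ) * (K - 1) ≤ ((n0 + (K ^ 2 - 1 - s) : ℕ) : ℝ) := by
      have h5 : K * (K - 1) ≤ n0 + (K ^ 2 - 1 - s) := by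
        obtain ⟨j, rfl⟩ : ∃ j, K = j + 1 := ⟨K - 1, by omega⟩
        have : (j + 1) ^ 2 = (j + 1) * j + j + 1 := by ring
        rw [this, Nat.add_sub_cancel]
        omega
      have h6 : ((K * (K - 1) : ℕ) : ℝ) = (K : ℝ) * (K - 1) := by
        rw [Nat.cast_mul, Nat.cast_sub (by omega)]
        simp
      rw [← h6]
      exact_mod_cast h5
    have hBK : (B : ℝ) ≤ K - 1 := by
      have : B + 1 ≤ K := by omega
      have : ((B + 1 : ℕ) : ℝ) ≤ K := by exact_mod_cast this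
      push_cast at this
      linarith
    have hK0 : (1 : ℝ) ≤ K := by exact_mod_cast (show 1 ≤ K by omega)
    rw [div_lt_iff₀ hε] at hB
    have h7 : ((n0 : ℝ) + 1) < ε * (K - 1) := by nlinarith
    have hn0 : (0 : ℝ) ≤ n0 := Nat.cast_nonneg _
    calc (n0 : ℝ) + K ≤ (n0 + 1) * K := by nlinarith
      _ < (ε * (K - 1)) * K := by
          apply mul_lt_mul_of_pos_right h7
          linarith
      _ = ε * (K * (K - 1)) := by ring
      _ ≤ _ := mul_le_mul_of_nonneg_left hN hε.le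

/-- every number of `[0,1]` is a limit point of the averages -/
lemma dense {n0 s : ℕ} (hv : ∀ i, v (n0 + i) = e (s + i)) (y : ℝ) (hy : y ∈ Icc (0 : ℝ) 1) (ε : ℝ) (hε : 0 < ε)
    (N₀ : ℕ) : ∃ N ≥ N₀, |av v N - y| < ε := by
  by_contra hcon
  push Not at hcon
  obtain ⟨N1, hN1⟩ := exists_nat_gt (1 / ε)
  have hstep : ∀ N ≥ N1 + 1, |av v (N + 1) - av v N| < ε := by
    intro N hN
    refine lt_of_le_of_lt (step h0 h1 N (by omega)) ?_
    have hNr : (N1 : ℝ) < N := by exact_mod_cast (show N1 < N by omega)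
    have hN1' : 0 < 1 / ε := by positivity
    rw [div_lt_iff₀ (by linarith)]
    rw [div_lt_iff₀ hε] at hN1
    nlinarith
  obtain ⟨m, N2, hm, hs, hN2, hle, hpos, hlt⟩ := exists_block h0 h1 n0 s ε hε (N₀ + N1 + 1) false
  have hx2 : av v N2 < ε := by
    have h2 := (block h0 h1 hv hs N2 hN2).1 (by rw [hm]; simp)
    have hNr : (0 : ℝ) < N2 := by exact_mod_cast hpos
    unfold av
    rw [one_div, inv_mul_lt_iff₀ hNr]
    calc _ ≤ _ := h2
      _ < ε * N2 := hlt
      _ = N2 * ε := by ring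
  have hind : ∀ j : ℕ, av v (N2 + j) ≤ y - ε := by
    intro j
    induction j with
    | zero =>
      have h3 := hcon N2 (by omega)
      rw [le_abs] at h3
      rcases h3 with h3 | h3
      · have := hy.1; linarith
      · rw [add_zero]; linarith
    | succ j ih =>
      have h3 := hcon (N2 + j + 1) (by omega)
      have h4 := hstep (N2 + j) (by omega)
      rw [abs_lt] at h4
      rw [← add_assoc]
      rw [le_abs] at h3
      rcases h3 with h3 | h3
      · linarith [h4.2]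
      · linarith
  obtain ⟨m', N3, hm', hs', hN3, hle', hpos', hlt'⟩ := exists_block h0 h1 n0 s ε hε N2 true
  have hx3 : 1 - ε < av v N3 := by
    have h2 := (block h0 h1 hv hs' N3 hN3).2 (by rw [hm'])
    have hNr : (0 : ℝ) < N3 := by exact_mod_cast hpos'
    unfold av
    rw [one_div, lt_inv_mul_iff₀ hNr]
    calc (N3 : ℝ) * (1 - ε) = N3 - ε * N3 := by ring
      _ < N3 - (n0 + 2 ^ 2 ^ m') := by linarith
      _ ≤ _ := h2
  have h5 := hind (N3 - N2)
  rw [show N2 + (N3 - N2) = N3 by omega] at h5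
  have := hy.2
  linarith

end seq

/-! ### levels -/

/-- the level of `x` with respect to the fixed point `a` with multiplier `l` -/
noncomputable def level (a l x : ℝ) : ℕ := ⌊Real.logb l⁻¹ (1 / |x - a|)⌋₊

lemma level_step {a l x y : ℝ} (hl0 : 0 < l) (hl1 : l < 1) (hx : x ≠ a) (hx1 : |x - a| ≤ 1)
    (hy : |y - a| = l * |x - a|) : level a l y = level a l x + 1 := by
  have hl : 1 < l⁻¹ := (one_lt_inv₀ hl0).2 hl1
  have hpos : 0 < |x - a| := abs_pos.2 (sub_ne_zero.2 hx)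
  unfold level
  rw [hy, show 1 / (l * |x - a|) = l⁻¹ * (1 / |x - a|) by field_simp,
    Real.logb_mul (by positivity) (by positivity), Real.logb_self_eq_one hl, add_comm, Nat.floor_add_one]
  apply Real.logb_nonneg hl
  rw [le_div_iff₀ hpos]
  linarith

lemma measurable_level (a l : ℝ) : Measurable (level a l) := by
  unfold level
  apply Nat.measurable_floor.comp
  unfold Real.logb
  apply Measurable.div_const
  apply Real.measurable_log.comp
  apply Measurable.const_div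
  exact (measurable_id.sub_const a).abs

/-- the set -/
def Rset (a l : ℝ) (J : Set ℝ) : Set ℝ := {x | x ∈ J ∧ Even (Nat.log 2 (Nat.log 2 (level a l x)))}

lemma measurable_Rset {a l : ℝ} {J : Set ℝ} (hJ : MeasurableSet J) : MeasurableSet (Rset a l J) := by
  apply hJ.inter
  exact measurable_level a l (t := {k | Even (Nat.log 2 (Nat.log 2 k))}) (MeasurableSet.of_discrete)

/-- the general statement -/
lemma general (S : ℝ → ℝ) (a l : ℝ) (J : Set ℝ) (hl0 : 0 < l) (hl1 : l < 1)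
    (hJ1 : ∀ x ∈ J, x ≠ a ∧ |x - a| ≤ 1) (hS : ∀ x ∈ J, S x ∈ J ∧ |S x - a| = l * |x - a|)
    (p : ℝ) (n0 : ℕ) (hp : S^[n0] p ∈ J) (y : ℝ) (hy : y ∈ Icc (0 : ℝ) 1) (ε : ℝ) (hε : 0 < ε) (N₀ : ℕ) :
    ∃ N ≥ N₀, |avg S (Rset a l J) p N - y| < ε := by
  classical
  have hit : ∀ i, S^[i] (S^[n0] p) ∈ J ∧ level a l (S^[i] (S^[n0] p)) = level a l (S^[n0] p) + i := by
    intro i
    induction i with
    | zero => exact ⟨hp, rfl⟩
    | succ i ih =>
      rw [Function.iterate_succ_apply']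
      obtain ⟨h1, h2⟩ := hS _ ih.1
      refine ⟨h1, ?_⟩
      rw [level_step hl0 hl1 (hJ1 _ ih.1).1 (hJ1 _ ih.1).2 h2, ih.2, add_assoc]
  obtain ⟨N, hN, h⟩ := dense (v := fun i => (Rset a l J).indicator (fun _ => (1 : ℝ)) (S^[i] p))
    (fun i => Set.indicator_nonneg (fun _ _ => by norm_num) _)
    (fun i => by
      simp only [Set.indicator_apply]
      split_ifs <;> norm_num)
    (n0 := n0) (s := level a l (S^[n0] p))
    (fun i => by
      rw [add_comm n0 i, Function.iterate_add_apply, Set.indicator_apply]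
      unfold e
      have : S^[i] (S^[n0] p) ∈ Rset a l J ↔ Even (Nat.log 2 (Nat.log 2 (level a l (S^[n0] p) + i))) := by
        unfold Rset
        rw [Set.mem_ofPred_eq, (hit i).2]
        exact and_iff_right (hit i).1
      simp only [this]) y hy ε hε N₀
  exact ⟨N, hN, h⟩

/-- **Negative answer to Q1 of MP_8df504_an, with all numbers of `[0,1]` as limit points.**

(1) Let `S` be a broken-linear transformation, `a ∈ [0,1]`, `0 < l < 1`, and let `J ⊆ [0,1]` be a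
Borel set with `a ∉ J` such that `S x ∈ J` and `|S x - a| = l |x - a|` for all `x ∈ J`. There is a
Borel set `R ⊆ J` such that for every `p` with an iterate in `J` every `y ∈ [0,1]` is a limit point
of the averages `A_N(R, p)`.

(2) There are a broken-linear homeomorphism `S` of `[0,1]` and a Borel set `R ⊆ [0,1]` such that for
every `p ∈ (0,1)` every `y ∈ [0,1]` is a limit point of `A_N(R, p)`; so the limit exists for no
`p ∈ (0,1)`. -/
theorem result :
    (∀ (S : ℝ → ℝ) (a l : ℝ) (J : Set ℝ), BrokenLinear S → a ∈ Set.Icc (0 : ℝ) 1 → 0 < l → l < 1 →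
      MeasurableSet J → J ⊆ Set.Icc 0 1 → a ∉ J → (∀ x ∈ J, S x ∈ J ∧ |S x - a| = l * |x - a|) →
      ∃ R : Set ℝ, R ⊆ J ∧ MeasurableSet R ∧ ∀ p : ℝ, (∃ n, S^[n] p ∈ J) →
        ∀ y ∈ Set.Icc (0 : ℝ) 1, ∀ ε > 0, ∀ N₀ : ℕ, ∃ N ≥ N₀, |avg S R p N - y| < ε) ∧
    ∃ (S : ℝ → ℝ) (R : Set ℝ), BrokenLinear S ∧ Set.BijOn S (Set.Icc 0 1) (Set.Icc 0 1) ∧
      R ⊆ Set.Icc 0 1 ∧ MeasurableSet R ∧ ∀ p ∈ Set.Ioo (0 : ℝ) 1,
        (∀ y ∈ Set.Icc (0 : ℝ) 1, ∀ ε > 0, ∀ N₀ : ℕ, ∃ N ≥ N₀, |avg S R p N - y| < ε) ∧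
        ¬ ∃ L : ℝ, Tendsto (avg S R p) atTop (𝓝 L) := by
  have h1 : ∀ (S : ℝ → ℝ) (a l : ℝ) (J : Set ℝ), BrokenLinear S → a ∈ Set.Icc (0 : ℝ) 1 → 0 < l → l < 1 →
      MeasurableSet J → J ⊆ Set.Icc 0 1 → a ∉ J → (∀ x ∈ J, S x ∈ J ∧ |S x - a| = l * |x - a|) →
      ∃ R : Set ℝ, R ⊆ J ∧ MeasurableSet R ∧ ∀ p : ℝ, (∃ n, S^[n] p ∈ J) →
        ∀ y ∈ Set.Icc (0 : ℝ) 1, ∀ ε > 0, ∀ N₀ : ℕ, ∃ N ≥ N₀, |avg S R p N - y| < ε := by
    intro S a l J _ ha hl0 hl1 hJ hJI haJ hS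
    refine ⟨Rset a l J, fun x hx => hx.1, measurable_Rset hJ, ?_⟩
    rintro p ⟨n, hn⟩ y hy ε hε N₀
    refine general S a l J hl0 hl1 (fun x hx => ⟨fun h => haJ (h ▸ hx), ?_⟩) hS p n hn y hy ε hε N₀
    have := hJI hx
    rw [abs_le]
    constructor <;> linarith [this.1, this.2, ha.1, ha.2]
  refine ⟨h1, ?_⟩
  obtain ⟨R, hR, hRm, h⟩ := h1 T 0 (1 / 2) (Set.Ioc 0 (2 / 3)) T_broken ⟨le_rfl, zero_le_one⟩ (by norm_num)
    (by norm_num) measurableSet_Ioc (fun x hx => ⟨hx.1.le, by linarith [hx.2]⟩) (by simp) (by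
      intro x hx
      rw [Pool.Agent.R232.BrokenLin.T_low hx.2]
      refine ⟨⟨by linarith [hx.1], by linarith [hx.2, hx.1]⟩, ?_⟩
      rw [sub_zero, sub_zero, abs_div]
      norm_num
      ring)
  refine ⟨T, R, T_broken, T_bij, fun x hx => ⟨(hR hx).1.le, by linarith [(hR hx).2]⟩, hRm, fun p hp => ?_⟩
  have h2 : ∀ y ∈ Set.Icc (0 : ℝ) 1, ∀ ε > 0, ∀ N₀ : ℕ, ∃ N ≥ N₀, |avg T R p N - y| < ε := by
    obtain ⟨n0, q, hq0, hq, hit⟩ := exists_low hp.1 hp.2
    refine h p ⟨n0, ?_⟩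
    have := hit 0
    rw [add_zero, pow_zero, div_one] at this
    rw [this]
    exact ⟨hq0, hq⟩
  refine ⟨h2, ?_⟩
  rintro ⟨L, hL⟩
  rw [Metric.tendsto_atTop] at hL
  obtain ⟨N₀, hN₀⟩ := hL (1 / 4) (by norm_num)
  obtain ⟨N, hN, hN'⟩ := h2 0 ⟨le_rfl, zero_le_one⟩ (1 / 4) (by norm_num) N₀
  obtain ⟨M, hM, hM'⟩ := h2 1 ⟨zero_le_one, le_rfl⟩ (1 / 4) (by norm_num) N₀
  have e1 := hN₀ N hN
  have e2 := hN₀ M hM
  rw [Real.dist_eq] at e1 e2
  rw [abs_lt] at e1 e2 hN' hM'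
  linarith [e1.1, e1.2, e2.1, e2.2, hN'.1, hN'.2, hM'.1, hM'.2]

end Pool.Agent.Results.MP_8df504_an.EveryLimitPoint
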